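import Pool.Agent.Helper60.LZ.St

/-!
# Project LZ (MP_5e9b96_nt), module FNZ: pigeonhole over `m` and sizes
-/

set_option autoImplicit false

noncomputable section

namespace Pool.Agent.Helper70.LZ

open Finset
open Pool.Agent.Helper60.LZ
open Pool.Agent.Helper30.LY (Sy)

/-- all conditions on `x` hold for large `x` -/
private theorem large (κ c : ℝ) (hκ : 0 < κ) (hc : 0 < c) (a b : ℕ) : ∃ x : ℕ, a ≤ x ∧ 3 ≤ x ∧
    1 ≤ c * x ∧ κ * (x ^ 2 * Real.log x) + x + b + 4 ≤ Real.exp (c * x) := by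
  have e1 : ∀ᶠ x : ℕ in Filter.atTop, a ≤ x := Filter.eventually_ge_atTop a
  have e2 : ∀ᶠ x : ℕ in Filter.atTop, b + 4 ≤ x := Filter.eventually_ge_atTop (b + 4)
  have e3 : ∀ᶠ x : ℕ in Filter.atTop, 1 / c ≤ (x : ℝ) :=
    (tendsto_natCast_atTop_atTop (R := ℝ)).eventually_ge_atTop _
  have e4 : ∀ᶠ x : ℕ in Filter.atTop, (κ + 2) * (x : ℝ) ^ 3 ≤ Real.exp (c * x) := by
    have h := (isLittleO_pow_exp_pos_mul_atTop (k := 3) hc).bound (c := 1 / (κ + 2))
      (by positivity)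
    have h' := tendsto_natCast_atTop_atTop (R := ℝ) |>.eventually h
    filter_upwards [h'] with x hx
    have hx0 : (0 : ℝ) ≤ x := Nat.cast_nonneg x
    rw [Real.norm_eq_abs, Real.norm_eq_abs, abs_of_nonneg (by positivity),
      abs_of_nonneg (Real.exp_pos _).le, div_mul_eq_mul_div, le_div_iff₀ (by positivity),
      one_mul] at hx
    linarith
  obtain ⟨x, h1, h2, h3, h4⟩ := (e1.and (e2.and (e3.and e4))).exists
  refine ⟨x, h1, by omega, ?_, ?_⟩
  · rw [div_le_iff₀ hc] at h3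
    linarith
  · refine le_trans ?_ h4
    have hx1 : (b : ℝ) + 4 ≤ x := by exact_mod_cast h2
    have hx2 : (4 : ℝ) ≤ x := by
      have : (0 : ℝ) ≤ b := Nat.cast_nonneg b
      linarith
    have hlog : Real.log x ≤ x := (Real.log_le_sub_one_of_pos (by linarith)).trans (by linarith)
    have h5 : (x : ℝ) ≤ x ^ 3 := by nlinarith [sq_nonneg ((x : ℝ) - 1), sq_nonneg (x : ℝ)]
    have h6 : κ * ((x : ℝ) ^ 2 * Real.log x) ≤ κ * x ^ 3 := by
      have : (x : ℝ) ^ 2 * Real.log x ≤ x ^ 2 * x := mul_le_mul_of_nonneg_left hlog (by positivity)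
      calc κ * ((x : ℝ) ^ 2 * Real.log x) ≤ κ * (x ^ 2 * x) :=
            mul_le_mul_of_nonneg_left this hκ.le
        _ = κ * x ^ 3 := by ring
    linarith

/-- FNZ. -/
theorem hFNZ (hT : StTOT) : StFNZ := by
  classical
  obtain ⟨κ, c, hκ, hc, x₀, hT⟩ := hT
  refine ⟨κ / 18, by positivity, fun n₀ => ?_⟩
  obtain ⟨x, hx0, hx3, hcx, hexp⟩ := large κ c hκ hc x₀ n₀
  obtain ⟨P, K, hP, hK1, hK2, hP1, hP2, hsum⟩ := hT x hx0
  have hx3' : (3 : ℝ) ≤ x := by exact_mod_cast hx3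
  have hxpos : (0 : ℝ) < x := by linarith
  have hlx : 0 < Real.log x := Real.log_pos (by linarith)
  -- the size of `P`
  have hPpos : 0 < P := lt_of_le_of_lt (Nat.zero_le _) (by
    have h := hsum
    have h0 : (0 : ℝ) ≤ ∑ y ∈ Sy x K, ((am P y).card : ℝ) :=
      Finset.sum_nonneg fun _ _ => Nat.cast_nonneg _
    exact_mod_cast lt_of_le_of_lt h0 h)
  have hPpos' : (0 : ℝ) < P := by exact_mod_cast hPpos
  have hPe : κ * (x ^ 2 * Real.log x) + x + n₀ + 4 ≤ (P : ℝ) := by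
    refine hexp.trans ?_
    rw [← Real.exp_log hPpos']
    exact Real.exp_le_exp.2 hP1
  have hterm : 0 ≤ κ * ((x : ℝ) ^ 2 * Real.log x) := by positivity
  have hKP : K + x + n₀ + 4 ≤ P := by
    have : (K : ℝ) + x + n₀ + 4 ≤ P := by linarith
    exact_mod_cast this
  -- pigeonhole
  obtain ⟨m, hm1, hm2⟩ : ∃ m ∈ Icc 1 P, ∀ y ∈ Sy x K, m ∉ am P y := by
    by_contra hcon
    push Not at hcon
    have hsub : Icc 1 P ⊆ (Sy x K).biUnion (fun y => am P y) := by
      intro m hm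
      obtain ⟨y, hy, hmy⟩ := hcon m hm
      exact mem_biUnion.2 ⟨y, hy, hmy⟩
    have h1 := (card_le_card hsub).trans card_biUnion_le
    rw [Nat.card_Icc, Nat.add_sub_cancel] at h1
    have h2 : (P : ℝ) ≤ ∑ y ∈ Sy x K, ((am P y).card : ℝ) := by exact_mod_cast h1
    linarith
  rw [mem_Icc] at hm1
  set n : ℕ := P - 4 + P * m with hn
  have hP4 : 4 ≤ P := by omega
  have hPm : P ≤ P * m := Nat.le_mul_of_pos_right _ hm1.1
  have hnP : P ≤ n := by omega
  have hn4 : n + 4 = P * (m + 1) := by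
    rw [Nat.mul_succ]
    omega
  have hn2 : n ≤ 2 * P ^ 2 := by
    have h1 : P * m ≤ P * P := Nat.mul_le_mul_left P hm1.2
    have h2 : P ≤ P * P := Nat.le_mul_of_pos_left _ hPpos
    have h3 : P - 4 ≤ P := Nat.sub_le _ _
    nlinarith
  have hn0' : (0 : ℝ) < n := by
    have : 0 < n := lt_of_lt_of_le hPpos hnP
    exact_mod_cast this
  have hln1 : 1 ≤ Real.log n := by
    have := Real.log_le_log hPpos' (by exact_mod_cast hnP : (P : ℝ) ≤ n)
    linarith
  have hln2 : Real.log n ≤ 3 * x := by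
    have h1 : (n : ℝ) ≤ 2 * (P : ℝ) ^ 2 := by exact_mod_cast hn2
    have h2 := Real.log_le_log hn0' h1
    rw [Real.log_mul two_ne_zero (by positivity), Real.log_pow] at h2
    have h3 := Real.log_two_lt_d9
    push_cast at h2
    linarith
  have hlln1 : 0 ≤ Real.log (Real.log n) := Real.log_nonneg hln1
  have hlln2 : Real.log (Real.log n) ≤ 2 * Real.log x := by
    have h1 := Real.log_le_log (by linarith : (0 : ℝ) < Real.log n) hln2
    rw [Real.log_mul (by norm_num) hxpos.ne'] at h1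
    have h3 : Real.log 3 ≤ Real.log x := Real.log_le_log (by norm_num) hx3'
    linarith
  refine ⟨n, by omega, ?_⟩
  intro k hk0 hk
  have hkK : k ≤ K := by
    have h1 : (k : ℝ) < K + 1 := by
      refine lt_of_le_of_lt ?_ hK2
      calc (k : ℝ) ≤ κ / 18 * (Real.log n ^ 2 * Real.log (Real.log n)) := hk
        _ ≤ κ / 18 * ((3 * x) ^ 2 * (2 * Real.log x)) := by gcongr
        _ = κ * (x ^ 2 * Real.log x) := by ring
    have h2 : k < K + 1 := by exact_mod_cast h1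
    omega
  have hkn : k < n := by omega
  refine ⟨hkn, ?_⟩
  by_cases hkS : k ∈ Sy x K
  · intro hpr
    refine hm2 k hkS ?_
    unfold am
    rw [mem_filter, mem_Icc]
    exact ⟨hm1, hpr⟩
  · -- the two numbers and their sizes
    have hxn' : x < n := by omega
    have hA1 : x < (n - k) + n * k := by
      have h1 : n ≤ n * k := Nat.le_mul_of_pos_right _ hk0
      omega
    have hB1 : x < (n - k) ^ 2 + n * k ^ 2 := by
      have h1 : n ≤ n * k ^ 2 := Nat.le_mul_of_pos_right _ (by positivity)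
      have h2 : 0 ≤ (n - k) ^ 2 := Nat.zero_le _
      omega
    have hcA : (((n - k) + n * k : ℕ) : ℤ) = (n : ℤ) - k + n * k := by
      rw [Nat.cast_add, Nat.cast_mul, Nat.cast_sub hkn.le]
    have hcB : (((n - k) ^ 2 + n * k ^ 2 : ℕ) : ℤ) = ((n : ℤ) - k) ^ 2 + n * k ^ 2 := by
      rw [Nat.cast_add, Nat.cast_mul, Nat.cast_pow, Nat.cast_pow, Nat.cast_sub hkn.le]
    have keyA : ∀ l : ℕ, l.Prime → l ≤ x → (l : ℤ) ∣ (n : ℤ) - k + n * k →
        ¬ ((n - k) + n * k).Prime := by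
      intro l hl hlx hd hpr
      rw [← hcA] at hd
      have hd' : l ∣ (n - k) + n * k := by exact_mod_cast hd
      have := (Nat.prime_dvd_prime_iff_eq hl hpr).1 hd'
      omega
    have keyB : ∀ l : ℕ, l.Prime → l ≤ x → (l : ℤ) ∣ ((n : ℤ) - k) ^ 2 + n * k ^ 2 →
        ¬ ((n - k) ^ 2 + n * k ^ 2).Prime := by
      intro l hl hlx hd hpr
      rw [← hcB] at hd
      have hd' : l ∣ (n - k) ^ 2 + n * k ^ 2 := by exact_mod_cast hd
      have := (Nat.prime_dvd_prime_iff_eq hl hpr).1 hd'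
      omega
    unfold Sy at hkS
    rw [mem_filter] at hkS
    have h0 : k ∈ Icc 1 K := mem_Icc.2 ⟨hk0, hkK⟩
    have h1 : ∃ l : ℕ, l.Prime ∧ 7 ≤ l ∧ 2 * l ≤ x ∧
        (l : ℤ) ∣ (5 * (k : ℤ) + 4) * ((k : ℤ) - 4) * (3 * (k : ℤ) + 4) := by
      by_contra hcon
      apply hkS
      refine ⟨h0, ?_⟩
      intro l hl hl2 hlx hc
      exact hcon ⟨l, hl, hl2, hlx, hc⟩
    obtain ⟨l, hl, hl7, hlx, hc⟩ := h1
    have h3 : (l : ℤ) ∣ (n : ℤ) + 4 := by
      have h4 : l ∣ n + 4 := by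
        rw [hn4]
        exact Dvd.dvd.mul_right (hP l hl hl7 hlx) _
      exact_mod_cast h4
    have hlp : Prime (l : ℤ) := Nat.prime_iff_prime_int.1 hl
    intro hpr
    rw [mul_assoc] at hc
    rcases hlp.dvd_or_dvd hc with h5 | h5
    · refine keyA l hl (by omega) ?_ hpr.1
      have e : (n : ℤ) - k + n * k = ((n : ℤ) + 4) * (k + 1) - (5 * (k : ℤ) + 4) := by ring
      rw [e]
      exact dvd_sub (Dvd.dvd.mul_right h3 _) h5
    · refine keyB l hl (by omega) ?_ hpr.2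
      have e : ((n : ℤ) - k) ^ 2 + n * k ^ 2
          = ((n : ℤ) + 4) * ((n : ℤ) + 4 - 2 * (4 + k) + k ^ 2)
            - ((k : ℤ) - 4) * (3 * (k : ℤ) + 4) := by ring
      rw [e]
      exact dvd_sub (Dvd.dvd.mul_right h3 _) h5

end Pool.Agent.Helper70.LZ
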